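import Pool.Agent.Helper82.NQ.St2

/-!
# Project NQ, module VVB: values of `vv`
-/

set_option autoImplicit false

namespace Pool.Agent.Helper51.NQ

open Pool.Agent.Helper82.NQ

private lemma le_vv (A k : ℕ) (h : 2 ^ k ∣ Nat.centralBinom A) : k ≤ vv A := by
  unfold vv
  exact (padicValNat_dvd_iff_le (Nat.centralBinom_ne_zero A)).1 h

/-- VVB. -/
theorem hVVB : StVVB := by
  refine ⟨le_vv 2 1 ?_, le_vv 3 2 ?_, le_vv 5 2 ?_, le_vv 6 2 ?_, le_vv 8 1 ?_, le_vv 9 2 ?_,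
    le_vv 11 3 ?_⟩ <;> decide +kernel

end Pool.Agent.Helper51.NQ
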